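import Pool.Agent.Helper73.Sym.Cohen

/-! # EC module Ccc: the countable chain condition for Cohen conditions -/

set_option autoImplicit false

namespace Pool.Agent.Helper64.EC

open Pool.Agent.Helper73.Sym

variable {I : Type}

theorem ccc_cpt_refl (p : Coh I) : Coh.Cpt p p := by
  intro i n b c hb hc
  rw [hb] at hc
  exact Option.some_injective _ hc

theorem ccc_cpt_symm {p q : Coh I} (h : Coh.Cpt p q) : Coh.Cpt q p := by
  intro i n b c hb hc
  exact (h i n c b hc hb).symm

/-- the domain of a condition -/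
def cccDom (p : Coh I) : Set (I × ℕ) := {x : I × ℕ | p.f x.1 x.2 ≠ none}

open Classical in
/-- erase the value at `x` -/
noncomputable def cccEra (x : I × ℕ) (p : Coh I) : Coh I :=
  ⟨fun i n => if (i, n) = x then none else p.f i n, by
    refine p.fin.subset ?_
    rintro ⟨i, n⟩ h
    simp only [ne_eq, Set.mem_ofPred_eq] at h ⊢
    by_cases h1 : (i, n) = x
    · rw [if_pos h1] at h
      exact absurd rfl h
    · rw [if_neg h1] at h
      exact h⟩

theorem cccEra_of_ne {x : I × ℕ} (p : Coh I) {i : I} {n : ℕ} (h : (i, n) ≠ x) :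
    (cccEra x p).f i n = p.f i n := by
  classical
  simp only [cccEra]
  rw [if_neg h]

theorem cccEra_self (x : I × ℕ) (p : Coh I) : (cccEra x p).f x.1 x.2 = none := by
  classical
  exact if_pos rfl

theorem ccc_finite (n : ℕ) : ∀ T : Set (Coh I),
    (∀ p ∈ T, ∀ q ∈ T, p ≠ q → ¬ Coh.Cpt p q) → (∀ p ∈ T, (cccDom p).ncard ≤ n) → T.Finite := by
  induction n with
  | zero =>
    intro T hT hn
    apply Set.Subsingleton.finite
    intro p hp q hq
    by_contra hne
    apply hT p hp q hq hne
    intro i m b c hb hc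
    exfalso
    have h1 : cccDom p = ∅ := (Set.ncard_eq_zero p.fin).1 (Nat.le_zero.1 (hn p hp))
    have h2 : (i, m) ∈ cccDom p := by
      show p.f i m ≠ none
      rw [hb]
      simp
    rw [h1] at h2
    exact h2
  | succ n ih =>
    intro T hT hn
    rcases T.eq_empty_or_nonempty with rfl | ⟨p0, hp0⟩
    · exact Set.finite_empty
    let Tx : I × ℕ → Set (Coh I) := fun x =>
      {q | q ∈ T ∧ ∃ b, p0.f x.1 x.2 = some b ∧ q.f x.1 x.2 = some (!b)}
    have hTx : ∀ x, (Tx x).Finite := by
      intro x
      have hinc : ∀ q ∈ Tx x, ∀ q' ∈ Tx x, q ≠ q' → ¬ Coh.Cpt (cccEra x q) (cccEra x q') := by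
        rintro q ⟨hq, b, hb, hqb⟩ q' ⟨hq', b', hb', hqb'⟩ hne hc
        have hbb : b = b' := Option.some_injective _ (hb.symm.trans hb')
        subst hbb
        apply hT q hq q' hq' hne
        intro i m c c' h1 h2
        by_cases hx : (i, m) = x
        · subst hx
          have h3 : some c = some (!b) := h1.symm.trans hqb
          have h4 : some c' = some (!b) := h2.symm.trans hqb'
          exact Option.some_injective _ (h3.trans h4.symm)
        · exact hc i m c c' ((cccEra_of_ne q hx).trans h1) ((cccEra_of_ne q' hx).trans h2)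
      have hinj : Set.InjOn (cccEra x) (Tx x) := by
        intro q hq q' hq' he
        by_contra hne
        apply hinc q hq q' hq' hne
        rw [he]
        exact ccc_cpt_refl _
      refine Set.Finite.of_finite_image (f := cccEra x) (ih _ ?_ ?_) hinj
      · rintro _ ⟨q, hq, rfl⟩ _ ⟨q', hq', rfl⟩ hne
        exact hinc q hq q' hq' (fun h => hne (by rw [h]))
      · rintro _ ⟨q, hq, rfl⟩
        have h1 : cccDom (cccEra x q) ⊂ cccDom q := by
          refine ⟨?_, ?_⟩
          · rintro ⟨i, m⟩ h
            have h' : (cccEra x q).f i m ≠ none := h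
            by_cases hx : (i, m) = x
            · exfalso
              subst hx
              exact h' (cccEra_self (i, m) q)
            · rw [cccEra_of_ne q hx] at h'
              exact h'
          · intro h
            obtain ⟨_, b, _, hqb⟩ := hq
            have h2 : x ∈ cccDom q := by
              show q.f x.1 x.2 ≠ none
              rw [hqb]
              simp
            exact (h h2 : (cccEra x q).f x.1 x.2 ≠ none) (cccEra_self x q)
        have h2 := Set.ncard_lt_ncard h1 q.fin
        have h3 := hn q hq.1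
        omega
    refine ((Set.finite_singleton p0).union (p0.fin.biUnion (fun x _ => hTx x))).subset ?_
    intro q hq
    by_cases hne : q = p0
    · left
      exact hne
    · right
      have h1 := hT p0 hp0 q hq (Ne.symm hne)
      unfold Coh.Cpt at h1
      push Not at h1
      obtain ⟨i, m, b, c, hb, hc, hbc⟩ := h1
      refine Set.mem_biUnion (x := (i, m)) ?_ ⟨hq, b, hb, ?_⟩
      · show p0.f i m ≠ none
        rw [hb]
        simp
      · rw [show q.f (i, m).1 (i, m).2 = q.f i m from rfl, hc]
        congr 1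
        cases b <;> cases c <;> simp_all

theorem ccc_countable (T : Set (Coh I)) (hT : ∀ p ∈ T, ∀ q ∈ T, p ≠ q → ¬ Coh.Cpt p q) :
    T.Countable := by
  have h : T = ⋃ n : ℕ, {p | p ∈ T ∧ (cccDom p).ncard ≤ n} := by
    ext p
    simp only [Set.mem_iUnion, Set.mem_ofPred_eq]
    constructor
    · intro hp
      exact ⟨_, hp, le_rfl⟩
    · rintro ⟨_, hp, _⟩
      exact hp
  rw [h]
  refine Set.countable_iUnion fun n => (ccc_finite n _ ?_ ?_).countable
  · rintro p ⟨hp, _⟩ q ⟨hq, _⟩ hne
    exact hT p hp q hq hne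
  · rintro p ⟨_, hp⟩
    exact hp

theorem exists_predense (S : Set (Coh I)) :
    ∃ A ⊆ S, A.Countable ∧ ∀ q ∈ S, ∃ a ∈ A, Coh.Cpt q a := by
  obtain ⟨A, hA⟩ := zorn_subset {A : Set (Coh I) | A ⊆ S ∧ A.Pairwise fun p q => ¬ Coh.Cpt p q} (by
    intro c hc hch
    refine ⟨⋃₀ c, ⟨?_, ?_⟩, fun s hs => Set.subset_sUnion_of_mem hs⟩
    · exact Set.sUnion_subset fun s hs => (hc hs).1
    · rw [Set.pairwise_sUnion hch.directedOn]
      exact fun s hs => (hc hs).2)
  obtain ⟨⟨hAS, hAp⟩, hmax⟩ := hA
  refine ⟨A, hAS, ccc_countable A (fun p hp q hq hne => hAp hp hq hne), ?_⟩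
  intro q hq
  by_contra hno
  push Not at hno
  have h1 : insert q A ∈ {A : Set (Coh I) | A ⊆ S ∧ A.Pairwise fun p q => ¬ Coh.Cpt p q} := by
    refine ⟨Set.insert_subset hq hAS, ?_⟩
    refine hAp.insert ?_
    intro b hb _
    exact ⟨hno b hb, fun h => hno b hb (ccc_cpt_symm h)⟩
  have h2 := hmax h1 (Set.subset_insert q A) (Set.mem_insert q A)
  exact hno q h2 (ccc_cpt_refl q)

theorem exists_cpt {X : Type} {s : Set X} (hs : ¬ s.Countable) (f : X → Coh I) :
    ∃ i ∈ s, ∃ j ∈ s, i ≠ j ∧ Coh.Cpt (f i) (f j) := by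
  by_contra hno
  push Not at hno
  apply hs
  refine Set.countable_of_injective_of_countable_image (f := f) ?_ (ccc_countable _ ?_)
  · intro i hi j hj he
    by_contra hne
    apply hno i hi j hj hne
    rw [he]
    exact ccc_cpt_refl _
  · rintro _ ⟨i, hi, rfl⟩ _ ⟨j, hj, rfl⟩ hne
    exact hno i hi j hj (fun h => hne (by rw [h]))

end Pool.Agent.Helper64.EC
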